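import Pool.Agent.Lib.MP_83608f_co.EXA.Spec
import Pool.Agent.Lib.MP_83608f_co.CN.ONE

/-! MP_83608f_co, part EXA, module TOP (helper32): the choice of the fragment and the constants, for the theorem of helper47:
the conjecture holds for `g ≥ C √k`. -/

set_option autoImplicit false

open Classical

noncomputable section

namespace Pool.Agent.Lib.MP_83608f_co.EXA

open Pool.Agent.Lib.MP_83608f_co.CN
open Pool.Agent.Lib.MP_83608f_co.LIM
open LAY_ (cb)
open SD_ (rs)

/-- the main part -/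
def SpecMain : Prop := ∃ M₀ M₁ : ℕ, ∀ (V : Type) [Fintype V] (A : V → V → Prop) (k m e δ : ℕ)
  (Q : Finset V), Sit A k m e δ Q → M₀ ≤ m → M₁ * δ ≤ m → False

/-- the main part from the modules -/
theorem specMain (hCLO : SpecCLO) (hTUB : SpecTUB) (hWZE : SpecWZE) (hEND : SpecEND) : SpecMain := by
  obtain ⟨κ, κ', hCLO⟩ := hCLO
  obtain ⟨κ₂, hTUB⟩ := hTUB κ
  obtain ⟨κ₃, hWZE⟩ := hWZE
  refine ⟨4, κ' + κ₂ + κ₃, fun V _ A k m e δ Q h hm hδm => ?_⟩
  have e1 : (κ' + κ₂ + κ₃) * δ = κ' * δ + κ₂ * δ + κ₃ * δ := by ring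
  obtain ⟨g1, g2, g3, g4⟩ := hCLO V A k m e δ Q h (by omega)
  refine hEND V A k m e δ Q h (by omega) (fun w hw i hi => ?_) g3 (hWZE V A k m e δ Q h (by omega))
  obtain ⟨z, hz, hwz⟩ := g1 w hw
  obtain ⟨h1, -⟩ := hTUB V A m δ Q z h.hcl h.hδ0 h.hδQ (by omega) hz
  have h2 : fb A Q w i ⊆ fb A Q z (3 * m / 4) := by
    have h3 : fb A Q w i ⊆ fb A Q z (m / 8 + i) := by
      clear hi
      induction i with
      | zero =>
        intro u hu
        have h4 : u = w := by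
          rw [fb, LAY_.cb, Finset.mem_singleton] at hu
          exact hu
        rw [h4]
        exact hwz
      | succ i ih =>
        intro u hu
        have h4 : m / 8 + (i + 1) = (m / 8 + i) + 1 := by ring
        rw [fb, h4]
        rcases Pool.Agent.Lib.MP_83608f_co.CN.FIN_.mem_outN.1 (by rw [fb, LAY_.cb] at hu; exact hu) with h5 | ⟨y, hy, h5⟩
        · exact LAY_.cb_sub z _ (ih h5)
        · exact Pool.Agent.Lib.MP_83608f_co.CN.FIN_.mem_outN.2 (Or.inr ⟨y, ih hy, h5⟩)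
    refine h3.trans (FIN_.cb_mono z ?_)
    omega
  exact fun R hR hRne => h1 R (hR.trans h2) hRne

namespace TOP_

variable {V : Type} [Fintype V] {A : V → V → Prop} {k m e : ℕ}

/-- a fragment of excess `e` -/
def Frag {V : Type} [Fintype V] (A : V → V → Prop) (k e : ℕ) (F : Finset V) : Prop :=
  F.Nonempty ∧ (outN A F).card + e = F.card + k ∧ outN A F ≠ Finset.univ

/-- the choice of the fragment, for `A` or for the reversed digraph -/
lemma choice (A : V → V → Prop) (h : ∃ F, Frag A k e F) : ∃ F : Finset V,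
    (Frag A k e F ∨ Frag (fun a b => A b a) k e F) ∧ (∀ F', Frag A k e F' → F.card ≤ F'.card) ∧
      (∀ F', Frag (fun a b => A b a) k e F' → F.card ≤ F'.card) := by
  have hne : ((Finset.univ : Finset (Finset V)).filter fun F => Frag A k e F ∨ Frag (fun a b => A b a) k e F).Nonempty := by
    obtain ⟨F, hF⟩ := h
    exact ⟨F, Finset.mem_filter.2 ⟨Finset.mem_univ _, Or.inl hF⟩⟩
  obtain ⟨F, hF, hmin⟩ := Finset.exists_min_image _ (fun F => F.card) hne
  refine ⟨F, (Finset.mem_filter.1 hF).2, fun F' h' => ?_, fun F' h' => ?_⟩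
  · exact hmin F' (Finset.mem_filter.2 ⟨Finset.mem_univ _, Or.inl h'⟩)
  · exact hmin F' (Finset.mem_filter.2 ⟨Finset.mem_univ _, Or.inr h'⟩)

/-- minimality -/
lemma closed (gro : ∀ F : Finset V, F.Nonempty → outN A F ≠ Finset.univ → F.card + k ≤ (outN A F).card + e)
    {Q : Finset V} (hQ : Frag A k e Q) (hmin : ∀ F', Frag A k e F' → Q.card ≤ F'.card) (F : Finset V) (hF : F.Nonempty)
    (hFQ : F ⊆ Q) (hcl : ∀ u ∈ F, ∀ v ∈ Q, A u v → v ∈ F) : F = Q := by
  have hQsub : Q ⊆ outN A Q := fun u hu => Pool.Agent.Lib.MP_83608f_co.CN.FIN_.mem_outN.2 (Or.inl hu)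
  have h1 : outN A F ⊆ F ∪ (outN A Q \ Q) := by
    intro z hz
    rcases Pool.Agent.Lib.MP_83608f_co.CN.FIN_.mem_outN.1 hz with h | ⟨w, hw, h⟩
    · exact Finset.mem_union_left _ h
    · by_cases hzQ : z ∈ Q
      · exact Finset.mem_union_left _ (hcl w hw z hzQ h)
      · exact Finset.mem_union_right _ (Finset.mem_sdiff.2
          ⟨Pool.Agent.Lib.MP_83608f_co.CN.FIN_.mem_outN.2 (Or.inr ⟨w, hFQ hw, h⟩), hzQ⟩)
  have h2 : outN A F ⊆ outN A Q := by
    intro z hz
    rcases Finset.mem_union.1 (h1 hz) with h | h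
    · exact hQsub (hFQ h)
    · exact (Finset.mem_sdiff.1 h).1
  have h3 : outN A F ≠ Finset.univ := fun h => hQ.2.2 (Finset.eq_univ_of_forall fun z => h2 (by rw [h]; exact Finset.mem_univ z))
  have h4 := gro F hF h3
  have h5 := (Finset.card_le_card h1).trans (Finset.card_union_le _ _)
  have h6 := Finset.card_sdiff_add_card_eq_card hQsub
  have h7 := hQ.2.1
  have h8 := hmin F ⟨hF, by omega, h3⟩
  exact Finset.eq_of_subset_of_card_le hFQ h8

/-- the degree inside a fragment is at least the excess -/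
lemma deg_ge (hout : ∀ v, (Finset.univ.filter fun u => A v u).card = k) {Q : Finset V}
    (hQ : (outN A Q).card + e = Q.card + k) (x : V) (hx : x ∈ Q) : e ≤ (Q.filter fun u => A x u).card := by
  have h1 : (Finset.univ.filter fun u => A x u) ⊆ (Q.filter fun u => A x u) ∪ (outN A Q \ Q) := by
    intro u hu
    rw [Finset.mem_filter] at hu
    rw [Finset.mem_union, Finset.mem_filter, Finset.mem_sdiff]
    by_cases huQ : u ∈ Q
    · exact Or.inl ⟨huQ, hu.2⟩
    · exact Or.inr ⟨Pool.Agent.Lib.MP_83608f_co.CN.FIN_.mem_outN.2 (Or.inr ⟨x, hx, hu.2⟩), huQ⟩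
  have h2 := (Finset.card_le_card h1).trans (Finset.card_union_le _ _)
  rw [hout x] at h2
  have h3 : Q ⊆ outN A Q := fun u hu => Pool.Agent.Lib.MP_83608f_co.CN.FIN_.mem_outN.2 (Or.inl hu)
  have h4 := Finset.card_sdiff_add_card_eq_card h3
  omega

/-- for one orientation -/
lemma one {M₀ M₁ M₂ : ℕ}
    (hM : ∀ (V : Type) [Fintype V] (A : V → V → Prop) (k m e δ : ℕ)
      (Q : Finset V), Sit A k m e δ Q → M₀ ≤ m → M₁ * δ ≤ m → False)
    (hA1 : ∀ (V : Type) [Fintype V] (A : V → V → Prop) (k m : ℕ), 1 ≤ k → M₂ ≤ m → NoCl A m →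
      (∀ v, (Finset.univ.filter fun u => A v u).card = k) → (∀ v, (Finset.univ.filter fun u => A u v).card = k) →
      ∀ Q : Finset V, Q.Nonempty → 2 * Q.card ≤ m * k → (outN A Q).card ≤ Q.card + k →
      ∃ v ∈ Q, m * (Q.filter fun u => A v u).card ≤ 6 * k)
    (hk : 1 ≤ k) (hout : ∀ v, (Finset.univ.filter fun u => A v u).card = k)
    (hin : ∀ v, (Finset.univ.filter fun u => A u v).card = k) (hcl : NoCl A m)
    (gro : ∀ F : Finset V, F.Nonempty → outN A F ≠ Finset.univ → F.card + k ≤ (outN A F).card + e)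
    (hn : Fintype.card V ≤ m * k) (he1 : 1 ≤ e) (hm0 : M₀ + M₂ ≤ m) (hm1 : M₁ * (6 * k) ≤ m * m)
    (Q : Finset V) (hQ : Frag A k e Q) (hmin : ∀ F', Frag A k e F' → Q.card ≤ F'.card)
    (hmin' : ∀ F', Frag (fun a b => A b a) k e F' → Q.card ≤ F'.card) : False := by
  -- at most half of the vertices
  obtain ⟨g1, g2, g3⟩ := FIN_.other gro Q hQ.1 hQ.2.1 hQ.2.2
  have h1 := hmin' _ ⟨g1, g3, g2⟩
  have hQsub : Q ⊆ outN A Q := fun u hu => Pool.Agent.Lib.MP_83608f_co.CN.FIN_.mem_outN.2 (Or.inl hu)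
  have h2 := Finset.card_le_card hQsub
  rw [Finset.card_compl] at h1
  have h3 := Finset.card_le_univ (outN A Q)
  have h4 := hQ.2.1
  -- the candidate
  obtain ⟨x, hx, hxmin⟩ := Finset.exists_min_image Q (fun v => (Q.filter fun u => A v u).card) hQ.1
  obtain ⟨δ, hδ⟩ : ∃ δ, δ = (Q.filter fun u => A x u).card := ⟨_, rfl⟩
  have hmδ : m * δ ≤ 6 * k := by
    obtain ⟨v, hv, h5⟩ := hA1 V A k m hk (by omega) hcl hout hin Q hQ.1 (by omega) (by omega)
    refine le_trans (Nat.mul_le_mul_left m ?_) h5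
    rw [hδ]
    exact hxmin v hv
  have heδ : e ≤ δ := by
    rw [hδ]
    exact deg_ge hout hQ.2.1 x hx
  refine hM V A k m e δ Q
    { hk := hk, hout := hout, hin := hin, hcl := hcl, gro := gro, gri := FIN_.gro_flip gro, hn := hn,
      he := heδ, hδ0 := by omega,
      hδ := hmδ, hδx := ⟨x, hx, hδ.symm⟩, hδQ := fun v hv => by rw [hδ]; exact hxmin v hv, hQ := hQ.2.1, hQu := hQ.2.2,
      hQ2 := by omega, hmin := fun F hFQ hF h => closed gro hQ hmin F hF hFQ h } (by omega) ?_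
  rcases Nat.eq_zero_or_pos m with h0 | h0
  · rw [h0, Nat.zero_mul] at hn
    obtain ⟨z, -⟩ := hQ.1
    have : 0 < Fintype.card V := Fintype.card_pos_iff.2 ⟨z⟩
    omega
  · have h6 : m * (M₁ * δ) ≤ m * m := by
      calc m * (M₁ * δ) = M₁ * (m * δ) := by ring
        _ ≤ M₁ * (6 * k) := Nat.mul_le_mul_left _ hmδ
        _ ≤ m * m := hm1
    exact Nat.le_of_mul_le_mul_left h6 h0

end TOP_

/-- **the final theorem**, with natural numbers -/
theorem specTOP (hMain : SpecMain) : SpecTOP := by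
  obtain ⟨M₀, M₁, hM⟩ := hMain
  have hA1 : ∀ (V : Type) [Fintype V] (A : V → V → Prop) (k m : ℕ), 1 ≤ k → 70 ≤ m → NoCl A m →
      (∀ v, (Finset.univ.filter fun u => A v u).card = k) → (∀ v, (Finset.univ.filter fun u => A u v).card = k) →
      ∀ Q : Finset V, Q.Nonempty → 2 * Q.card ≤ m * k → (outN A Q).card ≤ Q.card + k →
      ∃ v ∈ Q, m * (Q.filter fun u => A v u).card ≤ 6 * k := by
    intro V _ A k m hk hm hcl hout hin Q hQ h2 hS
    obtain ⟨x, hx, hxmin⟩ := Finset.exists_min_image Q (fun v => (Q.filter fun u => A v u).card) hQ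
    have hsub : Q ⊆ outN A Q := fun u hu => Pool.Agent.Lib.MP_83608f_co.CN.FIN_.mem_outN.2 (Or.inl hu)
    have h3 := Finset.card_sdiff_add_card_eq_card hsub
    refine ⟨x, hx, LG_.a1 hm hk hcl hout hin Q (outN A Q \ Q) hQ (by omega) h2 (fun a ha b hab => ?_) _
      (fun a ha => hxmin a ha)⟩
    by_cases hb : b ∈ Q
    · exact Or.inl hb
    · exact Or.inr (Finset.mem_sdiff.2
        ⟨Pool.Agent.Lib.MP_83608f_co.CN.FIN_.mem_outN.2 (Or.inr ⟨a, ha, hab⟩), hb⟩)
  refine ⟨(M₀ + 70 + 2) * (M₀ + 70 + 2) + M₁ * 6, ?_⟩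
  intro V _ _ A k m hk hkm hcl hout hin
  by_contra hcon
  have hn : Fintype.card V ≤ m * k := by omega
  have e0 : ((M₀ + 70 + 2) * (M₀ + 70 + 2) + M₁ * 6) * k = (M₀ + 70 + 2) * (M₀ + 70 + 2) * k + M₁ * (6 * k) := by ring
  rw [e0] at hkm
  have hm : M₀ + 70 + 2 ≤ m := by
    by_contra hlt
    have h1 : m * m ≤ (M₀ + 70 + 1) * (M₀ + 70 + 1) := Nat.mul_le_mul (by omega) (by omega)
    have h2 : (M₀ + 70 + 2) * (M₀ + 70 + 2) * 1 ≤ (M₀ + 70 + 2) * (M₀ + 70 + 2) * k := Nat.mul_le_mul_left _ hk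
    have h3 : (M₀ + 70 + 2) * (M₀ + 70 + 2) = (M₀ + 70 + 1) * (M₀ + 70 + 1) + 2 * (M₀ + 70) + 3 := by ring
    omega
  -- the maximal excess
  have hex : ∃ e, ∀ F : Finset V, F.Nonempty → outN A F ≠ Finset.univ → F.card + k ≤ (outN A F).card + e :=
    ⟨k, fun F _ _ => Nat.add_le_add_right (Finset.card_le_card fun u hu =>
      Pool.Agent.Lib.MP_83608f_co.CN.FIN_.mem_outN.2 (Or.inl hu)) k⟩
  obtain ⟨e, hee⟩ : ∃ e, e = Nat.find hex := ⟨_, rfl⟩
  have gro : ∀ F : Finset V, F.Nonempty → outN A F ≠ Finset.univ → F.card + k ≤ (outN A F).card + e := by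
    rw [hee]
    exact Nat.find_spec hex
  rcases Nat.eq_zero_or_pos e with h0 | h0
  · -- excess zero
    obtain ⟨v⟩ := ‹Nonempty V›
    have gri := FIN_.gro_flip gro
    rw [h0] at gro gri
    have h1 := FIN_.low hk (Nat.zero_le k) hin hcl gro v (m - 1) (by omega)
    have h2 := FIN_.low (A := fun a b => A b a) hk (Nat.zero_le k) hout (CUT_.nocl_flip hcl) gri v 1 (by omega)
    have h3 := FIN_.two hcl (m - 1) 1 (by omega) v
    obtain ⟨t, rfl⟩ : ∃ t, m = t + 1 := ⟨m - 1, by omega⟩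
    rw [Nat.add_sub_cancel] at h1 h3
    rw [Nat.sub_zero] at h1 h2
    have h4 : (t + 1) * k = t * k + 1 * k := by ring
    omega
  · -- an extremal set
    obtain ⟨Q, hQ⟩ : ∃ Q : Finset V, TOP_.Frag A k e Q := by
      have h1 : ¬ ∀ F : Finset V, F.Nonempty → outN A F ≠ Finset.univ → F.card + k ≤ (outN A F).card + (e - 1) :=
        Nat.find_min hex (by omega)
      push Not at h1
      obtain ⟨F, hF, hFu, h2⟩ := h1
      have h3 := gro F hF hFu
      exact ⟨F, hF, by omega, hFu⟩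
    obtain ⟨F, hF, hmin, hmin'⟩ := TOP_.choice A ⟨Q, hQ⟩
    rcases hF with hF | hF
    · exact TOP_.one hM hA1 hk hout hin hcl gro hn h0 (by omega) (by omega) F hF hmin hmin'
    · exact TOP_.one hM hA1 hk hin hout (CUT_.nocl_flip hcl) (FIN_.gro_flip gro) hn h0 (by omega) (by omega) F hF hmin'
        hmin

/-- **the conjecture for `g ≥ C √k`** -/
theorem topD (hTOP : SpecTOP) : ∃ C : ℕ, ∀ (V : Type) [Finite V] [Nonempty V] (G : Digraph V) (k g : ℕ),
    (∀ v, Nat.card {u // G.Adj v u} = k) → (∀ v, Nat.card {u // G.Adj u v} = k) → EM.GirthGe G g →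
    C * k ≤ g * g → k * (g - 1) + 1 ≤ Nat.card V := by
  obtain ⟨C, h⟩ := hTOP
  refine ⟨4 * C + 2, fun V _ _ G k g hout hin hgirth hkg => ?_⟩
  have := Fintype.ofFinite V
  have hpos : 1 ≤ Nat.card V := by
    rw [Nat.card_eq_fintype_card]
    exact Fintype.card_pos
  rcases Nat.eq_zero_or_pos k with hk | hk
  · rw [hk, zero_mul]
    omega
  rw [Nat.card_eq_fintype_card]
  have hg : 2 ≤ g := by
    by_contra hlt
    have h1 : g * g ≤ 1 * 1 := Nat.mul_le_mul (by omega) (by omega)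
    have h2 : (4 * C + 2) * 1 ≤ (4 * C + 2) * k := Nat.mul_le_mul_left _ hk
    omega
  obtain ⟨m, rfl⟩ : ∃ m, g = m + 1 := ⟨g - 1, by omega⟩
  rw [Nat.add_sub_cancel, Nat.mul_comm k m]
  refine h V G.Adj k m hk ?_ (Top_.noCl hgirth) (Top_.out_card hout) (Top_.in_card hin)
  have h1 : (m + 1) * (m + 1) ≤ (2 * m) * (2 * m) := Nat.mul_le_mul (by omega) (by omega)
  have h2 : (2 * m) * (2 * m) = 4 * (m * m) := by ring
  have h3 : (4 * C + 2) * k = 4 * (C * k) + 2 * k := by ring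
  omega

end Pool.Agent.Lib.MP_83608f_co.EXA
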