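import Pool.Agent.Lib.MP_83608f_co.LIM.FIN6

/-!
# MP_83608f_co, part EXA (helper47): the Behzad-Chartrand-Wall conjecture for `g ≥ C √k`

Paper proof: /team-store/MP_83608f_h47_EXACT.md.  Module XXX = file EXA/XXX.lean, `import ...EXA.Spec`,
`namespace Pool.Agent.Lib.MP_83608f_co.EXA`, own lemmas in `namespace XXX_`, final theorem `specXXX`.
`fb A Q v i` = `F_i(v)` = the ball of radius `i` of `v` in `D[Q]`, `dg A Q v` = out-degree of `v` inside `Q`.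
All constants `κ` are absolute natural numbers; large always means `κ * δ ≤ m` (so also `κ ≤ m`, because `1 ≤ δ`).
-/

set_option autoImplicit false

open Classical

noncomputable section

namespace Pool.Agent.Lib.MP_83608f_co.EXA

open Pool.Agent.Lib.MP_83608f_co.CN
open LAY_ (cb)
open SD_ (rs dg)

/-- `F_i(v)`: the ball of radius `i` of `v` in `D[Q]` -/
def fb {V : Type} [Fintype V] (A : V → V → Prop) (Q : Finset V) (v : V) (i : ℕ) : Finset V := cb (rs A Q) v i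

/-- `D[F]` is acyclic: every nonempty subset of `F` has a sink -/
def Acy {V : Type} (A : V → V → Prop) (F : Finset V) : Prop :=
  ∀ R ⊆ F, R.Nonempty → ∃ v ∈ R, ∀ u ∈ R, ¬ A v u

/-- `w` is tame -/
def Tame {V : Type} [Fintype V] (κ : ℕ) (A : V → V → Prop) (Q : Finset V) (m δ : ℕ) (w : V) : Prop :=
  w ∈ Q ∧ (fb A Q w (3 * m / 4)).card ≤ (3 * m / 4) * δ + κ * δ

/-- `v` is a gate at the perfect level `i + 1` of `w`: `N_Q⁺(v) = L_(i+1)(w)` has exactly `δ` elements, and no arc goes from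
`F_a(w) - F_i(w)` to `F_i(w)`, `a = 3 m / 4`. -/
structure Gate {V : Type} [Fintype V] (A : V → V → Prop) (Q : Finset V) (m δ : ℕ) (w : V) (i : ℕ) (v : V) : Prop where
  lt : i < 3 * m / 4
  mem : v ∈ fb A Q w i
  dgv : dg A Q v = δ
  out : ∀ u ∈ Q, (A v u ↔ u ∈ fb A Q w (i + 1) ∧ u ∉ fb A Q w i)
  bar : ∀ z ∈ fb A Q w (3 * m / 4), z ∉ fb A Q w i → ∀ y ∈ fb A Q w i, ¬ A z y

/-- The situation: a counterexample, `Q` = the smallest fragment of maximal excess `e` (among out- and in-fragments). -/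
structure Sit {V : Type} [Fintype V] (A : V → V → Prop) (k m e δ : ℕ) (Q : Finset V) : Prop where
  hk : 1 ≤ k
  hout : ∀ v, (Finset.univ.filter fun u => A v u).card = k
  hin : ∀ v, (Finset.univ.filter fun u => A u v).card = k
  hcl : NoCl A m
  gro : ∀ F : Finset V, F.Nonempty → outN A F ≠ Finset.univ → F.card + k ≤ (outN A F).card + e
  gri : ∀ F : Finset V, F.Nonempty → outN (fun a b => A b a) F ≠ Finset.univ →
    F.card + k ≤ (outN (fun a b => A b a) F).card + e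
  hn : Fintype.card V ≤ m * k
  he : e ≤ δ
  hδ0 : 1 ≤ δ
  hδ : m * δ ≤ 6 * k
  hδQ : ∀ v ∈ Q, δ ≤ dg A Q v
  hδx : ∃ x ∈ Q, dg A Q x = δ
  hQ : (outN A Q).card + e = Q.card + k
  hQu : outN A Q ≠ Finset.univ
  hQ2 : 2 * Q.card ≤ Fintype.card V
  hmin : ∀ F ⊆ Q, F.Nonempty → (∀ a ∈ F, ∀ b ∈ Q, A a b → b ∈ F) → F = Q

/-- G [section 1] from LIM (L2, L3, L4/L5 with the term `Φ` kept), `c = 6`, `c₅ = 45`: `x` a candidate.
(G1) the inner ball is small. (G2) for `j ≤ 3m/8` the ball `cb A x j` meets `S = outN A Q \ Q` only in out-neighbours of `x`. -/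
def SpecG : Prop := ∃ κ : ℕ, ∀ (V : Type) [Fintype V] (A : V → V → Prop) (k m e δ : ℕ) (Q : Finset V),
  Sit A k m e δ Q → κ * δ ≤ m → ∀ x ∈ Q, dg A Q x = δ →
  (fb A Q x (m - κ)).card ≤ (m + κ) * δ ∧
  ∀ j, 8 * j ≤ 3 * m → ∀ s ∈ outN A Q, s ∉ Q → s ∈ cb A x j → A x s

/-- DEF [section 2, pure; use `LIM.specA2`]: if `D[F_i(v)]` has a cycle then `|F_i(v)|` is large. -/
def SpecDEF : Prop := ∃ κ : ℕ, ∀ (V : Type) [Fintype V] (A : V → V → Prop) (m δ : ℕ) (Q : Finset V), NoCl A m → 1 ≤ δ →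
  (∀ v ∈ Q, δ ≤ dg A Q v) → ∀ v ∈ Q, ∀ i ≤ m, ¬ Acy A (fb A Q v i) → i * δ + m ≤ (fb A Q v i).card + i + κ * δ

/-- TAM [section 3, Lemma T, pure; use `LIM.specA2`, the closed-up digraph of `CN/LIMA2`, averaging of out- and in-balls]. -/
def SpecTAM : Prop := ∀ κ₁ : ℕ, ∃ κ : ℕ, ∀ (V : Type) [Fintype V] (A : V → V → Prop) (m δ : ℕ) (Q : Finset V) (x : V),
  NoCl A m → 1 ≤ δ → (∀ v ∈ Q, δ ≤ dg A Q v) → x ∈ Q → κ * δ ≤ m → (fb A Q x (m - κ₁)).card ≤ (m + κ₁) * δ →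
  ∃ w ∈ fb A Q x (m / 64), Tame κ A Q m δ w

/-- TUB [(t1)-(t5), pure, from DEF]: the tube of a tame vertex. -/
def SpecTUB : Prop := ∀ κ : ℕ, ∃ κ' : ℕ, ∀ (V : Type) [Fintype V] (A : V → V → Prop) (m δ : ℕ) (Q : Finset V) (w : V),
  NoCl A m → 1 ≤ δ → (∀ v ∈ Q, δ ≤ dg A Q v) → κ' * δ ≤ m → Tame κ A Q m δ w →
  Acy A (fb A Q w (3 * m / 4)) ∧
  (∀ y ∈ Q, ∀ s, fb A Q y s ⊆ fb A Q w (3 * m / 4) → (fb A Q y s).card + δ ≤ (fb A Q y (s + 1)).card) ∧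
  (∀ i ≤ 3 * m / 4, i * δ + 1 ≤ (fb A Q w i).card ∧ (fb A Q w i).card ≤ i * δ + κ * δ) ∧
  (∀ i j, i + κ * δ ≤ j → j ≤ 3 * m / 4 → ∃ p v, i ≤ p ∧ p < j ∧ Gate A Q m δ w p v) ∧
  (∀ z ∈ fb A Q w (m / 2), dg A Q z ≤ κ' * δ * δ) ∧
  ∃ P : Finset ℕ, (∀ p ∈ P, p < 3 * m / 4 ∧ ∃ v, Gate A Q m δ w p v) ∧ 3 * m / 4 ≤ P.card + κ * δ

/-- REA [section 4, pure, from TUB]: from `y` one reaches a gate quickly, if `y ∈ F_(l+1)(w)` is not below a perfect level `≤ l`. -/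
def SpecREA : Prop := ∀ κ : ℕ, ∃ κ' : ℕ, ∀ (V : Type) [Fintype V] (A : V → V → Prop) (m δ : ℕ) (Q : Finset V) (w : V),
  NoCl A m → 1 ≤ δ → (∀ v ∈ Q, δ ≤ dg A Q v) → κ' * δ ≤ m → Tame κ A Q m δ w →
  ∀ l ≤ m / 2, ∀ y ∈ fb A Q w (l + 1), (∀ i v, i < l → Gate A Q m δ w i v → y ∉ fb A Q w i) →
  ∃ p v, l + 1 < p ∧ p ≤ l + κ' * δ ∧ Gate A Q m δ w p v ∧ v ∈ fb A Q y (κ' * δ)

/-- CLO [section 5] from G, TAM, TUB, REA. -/
def SpecCLO : Prop := ∃ κ κ' : ℕ, ∀ (V : Type) [Fintype V] (A : V → V → Prop) (k m e δ : ℕ) (Q : Finset V),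
  Sit A k m e δ Q → κ' * δ ≤ m →
  (∀ z ∈ Q, ∃ w, Tame κ A Q m δ w ∧ z ∈ fb A Q w (m / 8)) ∧
  (∀ v ∈ Q, dg A Q v = δ → ∀ s ∈ outN A Q, s ∉ Q → A v s) ∧
  (∀ z ∈ Q, ∀ s ∈ outN A Q, s ∉ Q → ¬ A s z) ∧
  Q.card ≤ 2 * k

/-- WZE [section 6] from CLO, TUB, REA: a candidate with an in-neighbour outside `Q`. -/
def SpecWZE : Prop := ∃ κ : ℕ, ∀ (V : Type) [Fintype V] (A : V → V → Prop) (k m e δ : ℕ) (Q : Finset V),
  Sit A k m e δ Q → κ * δ ≤ m → ∃ w ∈ Q, dg A Q w = δ ∧ ∃ a, a ∉ Q ∧ A a w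

/-- END [section 7]: the final double counting, no constants.  `hacy`: the inner balls of radius `< (m+1)/2` are acyclic. -/
def SpecEND : Prop := ∀ (V : Type) [Fintype V] (A : V → V → Prop) (k m e δ : ℕ) (Q : Finset V),
  Sit A k m e δ Q → 2 ≤ m → (∀ w ∈ Q, ∀ i, 2 * i ≤ m → Acy A (fb A Q w i)) →
  (∀ z ∈ Q, ∀ s ∈ outN A Q, s ∉ Q → ¬ A s z) →
  (∃ w ∈ Q, dg A Q w = δ ∧ ∃ a, a ∉ Q ∧ A a w) → False

/-- TOP: the theorem, from CLO, TUB, WZE, END (choice of `Q`, `LIM.specA1`, reversal). -/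
def SpecTOP : Prop := ∃ C : ℕ, ∀ (V : Type) [Fintype V] [Nonempty V] (A : V → V → Prop) (k m : ℕ), 1 ≤ k → C * k ≤ m * m →
  NoCl A m → (∀ v, (Finset.univ.filter fun u => A v u).card = k) → (∀ v, (Finset.univ.filter fun u => A u v).card = k) →
  m * k + 1 ≤ Fintype.card V

end Pool.Agent.Lib.MP_83608f_co.EXA
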